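import Pool.Agent.H.MP_da2747_an.B

namespace Pool.Agent.Results.MP_da2747_an.No
open MeasureTheory Set Filter Topology ENNReal Complex

def Cond (E₁ E₂ E₃ : Set (OnePoint ℂ)) : Prop :=
  IsClosed E₁ ∧ IsClosed E₂ ∧ IsClosed E₃ ∧ Disjoint E₁ E₂ ∧ Disjoint E₁ E₃ ∧ Disjoint E₂ E₃

def Adm (E₁ E₂ E₃ : Set (OnePoint ℂ)) (v : OnePoint ℂ → ℝ) : Prop :=
  Continuous v ∧ LocallyLipschitz (fun z : ℂ => v z) ∧
    (∀ p ∈ E₁, v p = 1) ∧ (∀ p ∈ E₂, v p = -1) ∧ ∀ p ∈ E₃, v p = 0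

noncomputable def cap (E₁ E₂ E₃ : Set (OnePoint ℂ)) : ℝ≥0∞ :=
  ⨅ (v) (_ : Adm E₁ E₂ E₃ v), ∫⁻ z : ℂ, ‖fderiv ℝ (fun w : ℂ => v w) z‖ₑ ^ 2

def slice (B : Set (OnePoint ℂ)) (x : ℝ) : Set ℝ := {y | ((⟨x, y⟩ : ℂ) : OnePoint ℂ) ∈ B}

def StO (B : Set (OnePoint ℂ)) : Set (OnePoint ℂ) := (↑) '' {z : ℂ |
  (slice B z.re).Nonempty ∧ ENNReal.ofReal (2 * |z.im|) < volume (slice B z.re)}

def StC (E : Set (OnePoint ℂ)) : Set (OnePoint ℂ) := (↑) '' {z : ℂ |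
  (slice E z.re).Nonempty ∧ ENNReal.ofReal (2 * |z.im|) ≤ volume (slice E z.re)}

open Pool.Agent.H.MP_da2747_an

def ex (F : Set ℂ) : Set (OnePoint ℂ) := {s | ∀ z : ℂ, s = z → z ∈ F}

lemma mem_ex {F : Set ℂ} {z : ℂ} : (z : OnePoint ℂ) ∈ ex F ↔ z ∈ F := by simp [ex]

lemma inf_ex (F : Set ℂ) : OnePoint.infty ∈ ex F := fun _ h => (OnePoint.infty_ne_coe _ h).elim

def K (c : ℝ) : Set ℂ := {z | z.re = c ∧ |z.im| ≤ 1000000}

def F1 : Set ℂ := {z | z.re = -1 / 2 ∧ (z.im ≤ -1000001 ∨ 1 ≤ z.im) ∨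
  z.re = 1 / 2 ∧ (z.im ≤ -1 ∨ 1000001 ≤ z.im)}

def F2 : Set ℂ := {z | (z.re = -1 / 2 ∨ z.re = 1 / 2) ∧ 1000002 ≤ 2 * |z.im|}

lemma stK (c : ℝ) : StC ((↑) '' K c) = (↑) '' K c := by
  unfold StC
  congr 1
  ext z
  have e : slice ((↑) '' K c) z.re = {y | z.re = c ∧ |y| ≤ 1000000} := by
    ext y; simp [slice, K]
  rw [mem_setOf_eq, e]
  by_cases h : z.re = c
  · simp only [K, h, true_and, mem_setOf_eq, abs_le (b := (1000000 : ℝ)), Icc_def, Real.volume_Icc]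
    rw [ofReal_le_ofReal_iff (by norm_num), ← abs_le, and_iff_right (nonempty_Icc.2 (by norm_num))]
    constructor <;> intro <;> linarith
  · simp [K, h]

lemma stF : (StO (ex F1)ᶜ)ᶜ = ex F2 := by
  ext s
  induction s using OnePoint.rec with
  | infty => simp [StO, inf_ex]
  | coe z =>
    have e : slice (ex F1)ᶜ z.re = {y | (⟨z.re, y⟩ : ℂ) ∉ F1} := by
      ext y; simp [slice, mem_ex]
    rw [mem_ex, mem_compl_iff, StO, OnePoint.coe_injective.mem_set_image, mem_setOf_eq, e]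
    have k : ∀ a b : ℝ, b - a = 1000002 → (¬ ((Ioo a b).Nonempty ∧
        ENNReal.ofReal (2 * |z.im|) < volume (Ioo a b)) ↔ 1000002 ≤ 2 * |z.im|) := fun a b h => by
      rw [Real.volume_Ioo, h, ofReal_lt_ofReal_iff (by norm_num),
        and_iff_right (nonempty_Ioo.2 (by linarith)), not_lt]
    by_cases h1 : z.re = -1 / 2
    · rw [show {y | (⟨z.re, y⟩ : ℂ) ∉ F1} = Ioo (-1000001) 1 by ext y; norm_num [F1, h1],
        k _ _ (by norm_num)]
      simp [F2, h1]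
    by_cases h2 : z.re = 1 / 2
    · rw [show {y | (⟨z.re, y⟩ : ℂ) ∉ F1} = Ioo (-1) 1000001 by ext y; norm_num [F1, h2],
        k _ _ (by norm_num)]
      simp [F2, h2]
    rw [show {y | (⟨z.re, y⟩ : ℂ) ∉ F1} = univ by ext y; simp only [F1, mem_setOf_eq, h1, h2]; simp]
    simp only [F2, mem_setOf_eq, h1, h2, Real.volume_univ, ofReal_lt_top]
    simp

lemma cond {F : Set ℂ} (hF : IsClosed F) (h : ∀ z ∈ F, z.re = -1 / 2 ∨ z.re = 1 / 2) :
    Cond ((↑) '' K (-1)) ((↑) '' K 1) (ex F) := by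
  have c : ∀ c : ℝ, IsClosed ((↑) '' K c : Set (OnePoint ℂ)) := fun c => by
    have : IsClosed (K c) := (isClosed_eq continuous_re continuous_const).inter
      (isClosed_le continuous_im.abs continuous_const)
    refine OnePoint.isClosed_image_coe.2 ⟨this, (isCompact_closedBall 0 (|c| + 1000000)).of_isClosed_subset
      this fun z hz => mem_closedBall_zero_iff.2 ((norm_le_abs_re_add_abs_im z).trans ?_)⟩
    rw [hz.1]; linarith [hz.2]
  refine ⟨c _, c _, (OnePoint.isClosed_iff_of_mem (inf_ex F)).2 ?_, ?_, ?_, ?_⟩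
  · rwa [show ((↑) ⁻¹' ex F : Set ℂ) = F from Set.ext fun _ => mem_ex]
  · refine disjoint_image_of_injective OnePoint.coe_injective (disjoint_left.2 fun z a b => ?_)
    linarith [a.1, b.1]
  all_goals
    refine disjoint_left.2 ?_
    rintro _ ⟨z, a, rfl⟩ b
    rcases h z (mem_ex.1 b) with e | e <;> linarith [a.1]

lemma capu {A : ℂ → ℝ} (hL : Lp A) (hA : ∀ z : ℂ, 1 / 2 ≤ z.re → A z ≤ 0)
    (h1 : ∀ z : ℂ, z.re = -1 → 1 ≤ A z) {F : Set ℂ} (hF : ∀ z ∈ F, u A z = 0) :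
    cap ((↑) '' K (-1)) ((↑) '' K 1) (ex F) ≤ En (u A) := by
  have p : ∀ z ∈ K (-1), u A z = 1 := fun z hz => by
    have := abs_le.1 hz.2
    rw [u, P0 (z := -z) (Or.inr (Or.inl (hA _ (by rw [neg_re, hz.1]; norm_num)))), P, hz.1,
      show (1 : ℝ) + (-1 + 1) / 100 = 1 by norm_num, min_eq_left (h1 z hz.1),
      min_eq_left (le_min (by linarith) (by linarith))]
    norm_num
  refine iInf₂_le_of_le (fun s => s.elim 0 (u A)) ⟨?_, (lipu hL).locallyLipschitz, ?_, ?_, ?_⟩ le_rfl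
  · refine (OnePoint.continuous_iff _).2 ⟨tendsto_const_nhds.congr' ?_, (lipu hL).continuous⟩
    rw [coclosedCompact_eq_cocompact]
    refine mem_of_superset (isCompact_closedBall (0 : ℂ) 1000102).compl_mem_cocompact fun z hz => ?_
    refine (u0 hA ?_).symm
    by_contra! h
    exact hz (mem_closedBall_zero_iff.2 ((norm_le_abs_re_add_abs_im z).trans (by linarith [h.1, h.2])))
  · rintro _ ⟨z, hz, rfl⟩; exact p z hz
  · rintro _ ⟨z, hz, rfl⟩
    have := p (-z) ⟨by rw [neg_re, hz.1], by simpa using hz.2⟩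
    simp only [u, neg_neg, OnePoint.elim_some] at this ⊢
    linarith
  · intro s hs
    induction s using OnePoint.rec with
    | infty => rfl
    | coe z => exact hF z (mem_ex.1 hs)

theorem result : ∃ (E₁ : Set ℂ) (E₃ : Set (OnePoint ℂ)), (∀ z ∈ E₁, z.re < 0) ∧
    ∀ E₂ : Set ℂ, E₂ = {z | -(starRingEnd ℂ z) ∈ E₁} →
      Cond ((↑) '' E₁) ((↑) '' E₂) E₃ ∧
      Cond (StC ((↑) '' E₁)) (StC ((↑) '' E₂)) (StO E₃ᶜ)ᶜ ∧
      cap (StC ((↑) '' E₁)) (StC ((↑) '' E₂)) (StO E₃ᶜ)ᶜ < ⊤ ∧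
      cap ((↑) '' E₁) ((↑) '' E₂) E₃ < cap (StC ((↑) '' E₁)) (StC ((↑) '' E₂)) (StO E₃ᶜ)ᶜ := by
  refine ⟨K (-1), ex F1, fun z hz => by rw [hz.1]; norm_num, fun E₂ h => ?_⟩
  obtain rfl : E₂ = K 1 := by rw [h]; ext z; simp [K]
  rw [stK, stK, stF]
  have r : ∀ c, IsClosed {z : ℂ | z.re = c} := fun c => isClosed_eq continuous_re continuous_const
  have i : ∀ a b, IsClosed {z : ℂ | z.im ≤ a ∨ b ≤ z.im} := fun a b =>
    (isClosed_le continuous_im continuous_const).union (isClosed_le continuous_const continuous_im)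
  refine ⟨cond (((r _).inter (i _ _)).union ((r _).inter (i _ _))) fun z h => h.imp And.left And.left,
    cond (((r _).union (r _)).inter (isClosed_le continuous_const (continuous_const.mul continuous_im.abs))) fun z h => h.1,
    (capu lp2 a2 (fun z h => by norm_num [A2, h]) fun z h => ?_).trans_lt fin2,
    ((capu lp1 a1 (fun z h => ?_) fun z h => ?_).trans_lt upper).trans_le
      (le_iInf₂ fun v hv => lower hv.2.1 (by norm_num) (fun y hy => ⟨hv.2.2.1 _ ⟨_, ⟨rfl, hy⟩, rfl⟩,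
        hv.2.2.2.1 _ ⟨_, ⟨rfl, hy⟩, rfl⟩⟩) fun y hy => ⟨hv.2.2.2.2 _ (mem_ex.2 ⟨Or.inl rfl, by
          linarith⟩), hv.2.2.2.2 _ (mem_ex.2 ⟨Or.inr rfl, by linarith⟩)⟩)⟩
  · rw [u, P0, P0, sub_zero] <;> right <;> left <;> rcases h.1 with e | e <;> norm_num [A2, e]
  · rw [A1, h]; exact le_min (by norm_num) (le_max_of_le_left (by norm_num))
  · have k : ∀ w : ℂ, w.re = -1 / 2 → 1 ≤ w.im ∨ 1000001 ≤ |w.im| → u A1 w = 0 := fun w a b => by
      rw [u, P0 (z := -w) (Or.inr (Or.inl (a1 _ (by rw [neg_re, a]; norm_num)))), P0, sub_zero]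
      exact Or.inr (b.imp_left fun b => min_le_of_right_le (max_le (by linarith) (by linarith)))
    rcases h with ⟨a, b⟩ | ⟨a, b⟩
    · exact k z a (b.symm.imp_right fun b => by linarith [neg_le_abs z.im])
    · have := k (-z) (by rw [neg_re, a]; norm_num) (b.imp (fun b => by rw [neg_im]; linarith)
        fun b => by rw [neg_im, abs_neg]; linarith [le_abs_self z.im])
      simp only [u, neg_neg] at this ⊢
      linarith

end Pool.Agent.Results.MP_da2747_an.No
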